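import Pool.Agent.Y101.Aq.VMain

/-!
# MP_bf8edd_ag: the conjecture of Voevodsky for one variety and the canonical classes of projective
bundles

Let `C` be the Chow theory (with rational coefficients) of a class of smooth projective varieties, `H` a
Weil cohomology theory, `D` the theory of vector bundles and `can X` the canonical class of `X`. Let `X`
be a variety such that homologically trivial divisors on `X` are smash-nilpotent (this is a theorem of
Voevodsky and Voisin, because they are algebraically trivial up to torsion). The following are
equivalent.

1. The homologically trivial cycles on `X` are smash-nilpotent.
2. For every vector bundle `E` on `X` with `c_1(E) = - K_X`, of rank `r ≥ 1`: if the power `r + 1` of the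
   canonical class of `P(E)` is homologically trivial, then it is smash-nilpotent.
3. For every vector bundle `E` on `X` of rank `r ≥ 1`: if the power `r` of the relative canonical class
   of `P(E)` over `X` is homologically trivial, then it is smash-nilpotent.
4. For every vector bundle `E` on `X`: if the Chern classes `c_i(E)`, `i ≥ 1`, are homologically
   trivial, then they are smash-nilpotent.
5. (1) holds for `P(E)` for every vector bundle `E` of positive rank on `X`.

So the conjecture for cycles of all codimensions on `X` is a statement about one power of the canonical
class of each of the projective bundles `P(E)` with `c_1(E) = - K_X`, where the canonical class is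
`- r ξ`.

Main steps of the proof of (2 => 1): the smash-nilpotent classes are those which belong to all prime
adequate equivalence relations, and so they form an adequate equivalence relation. Every element of the
K-group of a projective variety is the difference of a vector bundle and a trivial bundle, so for a
homologically trivial class `x` of codimension `i ≥ 2` on `X` there is a vector bundle `E` with
`ch(E) = (r + 1) - e ^ K_X + n x`, `n ≥ 1`. The Chern classes of `E ⊕ O(K_X)` are homologically trivial,
and so is `ξ ^ (r + 1)`, as the relation between the powers of `ξ` multiplied by `ξ - K_X` shows. If
`ξ ^ (r + 1)` is smash-nilpotent, then so are the Chern classes of `E ⊕ O(K_X)`, by descending the powers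
of `ξ`, and `x`, by Newton's identities.
-/

set_option autoImplicit false

open CategoryTheory AlgebraicGeometry

universe u v w w'

namespace Pool.Agent.Results.MP_bf8edd_ag.CanonicalProjectiveBundles

open Pool.Agent.Y101.Aq Pool.Agent.H914 VarClass Obj Pool.Agent.W492.BB Pool.Agent.TH133

/-- **Voevodsky's conjecture for `X` is equivalent to Voevodsky's conjecture for the power `r + 1` of the
canonical classes of the projective bundles `P(E)` with `c_1(E) = - K_X`**, `r` the rank of `E`, for the
power `r` of the relative canonical classes of all projective bundles over `X`, for the Chern classes of
the vector bundles on `X`, and for all projective bundles over `X`. -/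
theorem result {k : Type u} [Field k] {𝒱 : VarClass k} {C : TheoryData.{u, v, 0} 𝒱 ℚ}
    [IsChowProj C] {K : Type w} [Field K] {H : WeilTheoryData.{u, v, w} C K} [IsWeilProj H]
    {D : BundleData.{u, v, w'} C} (hD : IsBundleTheory D) {can : ∀ X : 𝒱.Obj, C.A X}
    (hcan : IsCanonical D can) (X : 𝒱.Obj) (hV : DivisorVoevodsky H X) :
    List.TFAE [HomVoevodsky H X, AnticanonicalVoevodsky D can H X, RelCanonicalVoevodsky D H X,
      HomBundleVoevodsky D H X, ∀ E : D.B X, 1 ≤ D.rk E → HomVoevodsky H (D.P E)] :=
  v_local hD hcan X hV

end Pool.Agent.Results.MP_bf8edd_ag.CanonicalProjectiveBundles
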