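import Pool.Agent.Y712.AJ.Smash

/-!
# Voevodsky's conjecture for cycles of dimension `i` and varieties of dimension `2 i + 1`

Let `C` be the Chow theory (with rational coefficients) of the smooth projective varieties over a perfect
field and `H` a Weil cohomology (`ℓ`-adic or Betti cohomology). For each `i`, the homologically trivial
cycles of dimension `i` on **all** varieties are smash-nilpotent if and only if those on the varieties
of dimension **`2 i + 1`** are: the conjecture for one-cycles is a statement about threefolds. So the
conjecture for all varieties and all codimensions is the conjecture for codimension `i + 1` on the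
varieties of dimension `2 i + 1`, for all `i`, the first codimension above the middle. Finite-dimensionality
of motives and the standard conjectures are not used.

A cycle of dimension `i` on `X` is moved to a smooth complete intersection of dimension `2 i + 1` in a
product of `X` with projective spaces (`HasSections`: resolution or alterations, Bertini, weak
Lefschetz), where it is still homologically trivial.
-/

set_option autoImplicit false

open CategoryTheory AlgebraicGeometry

universe u v w

namespace Pool.Agent.Results.MP_bf8edd_ag.CyclesOfFixedDimension

open Pool.Agent.Y101.Aq Pool.Agent.H914 VarClass Obj Pool.Agent.W492.BB Pool.Agent.TH133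
  Pool.Agent.Y712.Sec

/-- **Homologically trivial cycles of dimension `i` are smash-nilpotent on all varieties if and only if
they are so on the varieties of dimension `2 i + 1`**; homologically trivial cycles of all codimensions
are smash-nilpotent on all varieties if and only if, for all `i`, those of codimension `i + 1` on the
varieties of dimension `2 i + 1` are so. -/
theorem result {k : Type u} [Field k] {𝒱 : VarClass k} {C : TheoryData.{u, v, 0} 𝒱 ℚ}
    [IsChowProj C] {K : Type w} [Field K] {H : WeilTheoryData.{u, v, w} C K} [IsWeilProj H]
    (hS : HasSections H) :
    (∀ i, ((∀ X : 𝒱.Obj, HomSmash H i X) ↔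
      ∀ X : 𝒱.Obj, X.dim = 2 * i + 1 → HomSmash H i X)) ∧
    ((∀ X : 𝒱.Obj, HomVoevodsky H X) ↔
      ∀ (i : ℕ) (X : 𝒱.Obj), X.dim = 2 * i + 1 → HomSmash H i X) := by
  refine ⟨smash_reduction hS, ?_, ?_⟩
  · intro h i X _ a ha hcl
    exact h X _ a ha hcl
  · intro h X n a ha hcl
    by_cases hn : n ≤ X.dim
    · obtain ⟨i, hi⟩ : ∃ i : ℕ, (X.dim : ℤ) - i = n := by
        obtain ⟨i, hi⟩ := Int.eq_ofNat_of_zero_le (sub_nonneg.2 hn)
        exact ⟨i, by omega⟩
      refine (smash_reduction hS i).2 (h i) X a ?_ hcl
      show C.Deg ((X.dim : ℤ) - i) a
      rw [hi]
      exact ha
    · have h0 : a = 0 := IsChowProj.gr_top X n a ha (by omega)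
      rw [h0]
      exact smash_zero X

end Pool.Agent.Results.MP_bf8edd_ag.CyclesOfFixedDimension
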