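import Pool.Agent.Y112.Eigen

/-!
# Eigencycles whose eigenvalue does not occur on the even cohomology are smash-nilpotent
-/

open CategoryTheory AlgebraicGeometry

set_option autoImplicit false

universe u v w

namespace Pool.Agent.Results.MP_bf8edd_ag.Eigencycles

open Pool.Agent.H914 Pool.Agent.W492.BB Pool.Agent.TH133 Pool.Agent.TH829.Prime Pool.Agent.Y112

/-- Let `X` be a variety whose Chow motive is finite-dimensional, `τ` a self-correspondence of
degree zero, and `P`, `Q` coprime polynomials such that `P(τ)` acts as zero on the cohomology of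
`X` in even degrees. Then a class `a` on `X` is smash-nilpotent if and only if `Q(τ)_* a` is. -/
theorem result {k : Type u} [Field k] {𝒱 : VarClass k} (C : TheoryData.{u, v, 0} 𝒱 ℚ)
    [IsChowProj C] {K : Type w} [Field K] (H : WeilTheoryData.{u, v, w} C K) [IsWeilProj H]
    (hcomm : IsGradedComm H) {X : 𝒱.Obj} (hX : KimuraFinite C X) (τ : C.A (X.prod X))
    (hτ : C.Deg X.dim τ) (P Q : Polynomial ℚ) (hPQ : IsCoprime P Q)
    (hP : ∀ d : ℕ, Even d → ∀ b : H.A X, H.Deg d b → H.act (H.cl (polyCorr C P τ)) b = 0)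
    (i : ℤ) (a : C.A X) (ha : C.Deg i a) :
    SmashNilpotent C a ↔ SmashNilpotent C (C.act (polyCorr C Q τ) a) :=
  eigen H hcomm hX hτ P Q hPQ hP ha

end Pool.Agent.Results.MP_bf8edd_ag.Eigencycles
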