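import Pool.Agent.Y112.Lef

/-!
# Voevodsky's conjecture passes from a hyperplane section to an odd-dimensional variety
-/

open CategoryTheory AlgebraicGeometry

set_option autoImplicit false

universe u v w

namespace Pool.Agent.Results.MP_bf8edd_ag.OddHyperplane

open Pool.Agent.H914 Pool.Agent.W492.BB Pool.Agent.TH133 Pool.Agent.Y112

/-- Let `X` be a variety of odd dimension whose Chow motive is finite-dimensional, and let
`i : Y ⟶ X` be a morphism from a variety of dimension `dim X - 1` such that the standard conjecture
of Lefschetz type holds, in even degrees, for `X` and the divisor class `i_* [Y]`. If each homologically trivial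
cycle on `Y` is smash-nilpotent then so is each homologically trivial cycle on `X`. -/
theorem result {k : Type u} [Field k] {𝒱 : VarClass k} (C : TheoryData.{u, v, 0} 𝒱 ℚ)
    [IsChowProj C] {K : Type w} [Field K] (H : WeilTheoryData.{u, v, w} C K) [IsWeilProj H]
    (hcomm : IsGradedComm H) {X Y : 𝒱.Obj} (hodd : Odd X.dim) (hX : KimuraFinite C X)
    (i : Y ⟶ X) (hdim : Y.dim + 1 = X.dim) (hB : LefschetzEven H X (C.push i 1))
    (hY : VoevodskyHom H Y) : VoevodskyHom H X :=
  odd_hyperplane H hcomm hodd hX i hdim hB hY

end Pool.Agent.Results.MP_bf8edd_ag.OddHyperplane
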